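import Mathlib
import Pool.Agent.H20.CircDefs
import Pool.Agent.H20.CircMix

set_option autoImplicit false

namespace Pool.Agent.Results.MP_067019_co.NotAttained

open Pool.Agent.H20.CircDefs Pool.Agent.H20.CircMix

theorem result : ∃ G : SimpleGraph (Fin 8), ¬ G.Colorable 2 ∧ R G = Set.Ioi 5 ∧
    circMixThreshold G = 5 ∧ ¬ ∃ r ∈ R G, (r : ℝ) = circMixThreshold G := by
  refine ⟨G, not_bip, R_eq, Mc_eq, ?_⟩
  rintro ⟨r, h1, h2⟩
  rw [R_eq] at h1
  rw [Mc_eq] at h2
  have : r = 5 := by exact_mod_cast h2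
  subst this
  simp at h1

end Pool.Agent.Results.MP_067019_co.NotAttained
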